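import Pool.Agent.X170.Spec.Erg
import Pool.Agent.W764.FB.Ext

/-!
Many large Fourier coefficients of `×p, ×q` invariant measures.
-/

set_option autoImplicit false

open MeasureTheory Filter Topology

namespace Pool.Agent.X170.Spec

open Pool.Agent.X170.Log2

/-- The numbers `p ^ a * q ^ b`, `X ≤ a, b < 2 X`. -/
def box (p q X : ℕ) : Finset ℤ :=
  (Finset.range X ×ˢ Finset.range X).image fun ab => (p : ℤ) ^ (X + ab.1) * (q : ℤ) ^ (X + ab.2)

/-- Alternating sums of elements of the boxes of sizes `3 ^ i * Y`. -/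
def F (p q Y : ℕ) : ℕ → Finset ℤ
  | 0 => {0}
  | i + 1 => (F p q Y i ×ˢ box p q (3 ^ i * Y)).image fun sk => sk.1 + (-1) ^ i * sk.2

variable {p q : ℕ}

lemma box_mem {X : ℕ} {k : ℤ} (hp : 2 ≤ p) (hq : 2 ≤ q) (h : k ∈ box p q X) :
    ((p : ℤ) * q) ^ X ∣ k ∧ 0 ≤ k ∧ k * ((p : ℤ) * q) ≤ ((p : ℤ) * q) ^ (2 * X) := by
  unfold box at h
  rw [Finset.mem_image] at h
  obtain ⟨⟨a, b⟩, hab, rfl⟩ := h
  rw [Finset.mem_product, Finset.mem_range, Finset.mem_range] at hab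
  obtain ⟨ha, hb⟩ := hab
  simp only at ha hb ⊢
  have hp0 : (1 : ℤ) ≤ p := by exact_mod_cast (by omega : 1 ≤ p)
  have hq0 : (1 : ℤ) ≤ q := by exact_mod_cast (by omega : 1 ≤ q)
  refine ⟨?_, by positivity, ?_⟩
  · rw [mul_pow]
    exact mul_dvd_mul (pow_dvd_pow _ (by omega)) (pow_dvd_pow _ (by omega))
  · calc (p : ℤ) ^ (X + a) * (q : ℤ) ^ (X + b) * ((p : ℤ) * q)
        = (p : ℤ) ^ (X + a + 1) * (q : ℤ) ^ (X + b + 1) := by ring
      _ ≤ (p : ℤ) ^ (2 * X) * (q : ℤ) ^ (2 * X) :=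
        mul_le_mul (pow_le_pow_right₀ hp0 (by omega)) (pow_le_pow_right₀ hq0 (by omega))
          (by positivity) (by positivity)
      _ = _ := by rw [mul_pow]

lemma F_lt {Y : ℕ} (hp : 2 ≤ p) (hq : 2 ≤ q) (hY : 1 ≤ Y) (i : ℕ) {s : ℤ}
    (hs : s ∈ F p q Y i) : 2 * |s| < ((p : ℤ) * q) ^ (3 ^ i * Y) := by
  have hpq4 : (4 : ℤ) ≤ (p : ℤ) * q := by
    have h1 : (2 : ℤ) ≤ p := by exact_mod_cast hp
    have h2 : (2 : ℤ) ≤ q := by exact_mod_cast hq
    nlinarith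
  induction i generalizing s with
  | zero =>
    simp only [F, Finset.mem_singleton] at hs
    subst hs
    simp only [abs_zero, mul_zero]
    positivity
  | succ i ih =>
    simp only [F, Finset.mem_image, Finset.mem_product, Prod.exists] at hs
    obtain ⟨s', k, ⟨hs', hk⟩, rfl⟩ := hs
    have h1 := ih hs'
    obtain ⟨-, hk0, hk1⟩ := box_mem hp hq hk
    set X := 3 ^ i * Y with hX
    have hX1 : 1 ≤ X := Nat.mul_pos (by positivity) hY
    have hR4 : (4 : ℤ) ≤ ((p : ℤ) * q) ^ X :=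
      hpq4.trans (le_self_pow₀ (by linarith) (by omega))
    have e3 : 3 ^ (i + 1) * Y = 3 * X := by rw [hX, pow_succ]; ring
    have e4 : ((p : ℤ) * q) ^ (3 * X) = (((p : ℤ) * q) ^ X) ^ 3 := by rw [← pow_mul, mul_comm 3]
    have e5 : ((p : ℤ) * q) ^ (2 * X) = (((p : ℤ) * q) ^ X) ^ 2 := by rw [← pow_mul, mul_comm 2]
    rw [e5] at hk1
    rw [e3, e4]
    set R := ((p : ℤ) * q) ^ X with hR
    have h4 : |s' + (-1) ^ i * k| ≤ |s'| + k := by
      refine (abs_add_le _ _).trans ?_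
      rw [abs_mul, abs_pow, abs_neg, abs_one, one_pow, one_mul, abs_of_nonneg hk0]
    have h5 : 4 * k ≤ R ^ 2 := by nlinarith
    nlinarith

lemma F_inj {Y : ℕ} (hp : 2 ≤ p) (hq : 2 ≤ q) (hY : 1 ≤ Y) (i : ℕ) :
    Set.InjOn (fun sk : ℤ × ℤ => sk.1 + (-1) ^ i * sk.2)
      (↑(F p q Y i ×ˢ box p q (3 ^ i * Y)) : Set (ℤ × ℤ)) := by
  rintro ⟨s, k⟩ h ⟨s', k'⟩ h' heq
  rw [Finset.mem_coe, Finset.mem_product] at h h'
  simp only at h h' heq
  have h1 := F_lt hp hq hY i h.1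
  have h2 := F_lt hp hq hY i h'.1
  obtain ⟨d1, -, -⟩ := box_mem hp hq h.2
  obtain ⟨d2, -, -⟩ := box_mem hp hq h'.2
  have hd : ((p : ℤ) * q) ^ (3 ^ i * Y) ∣ s' - s := by
    have h3 : s' - s = (-1) ^ i * (k - k') := by linarith
    rw [h3]
    exact Dvd.dvd.mul_left (dvd_sub d1 d2) _
  have habs : |s' - s| < ((p : ℤ) * q) ^ (3 ^ i * Y) := by
    have := abs_sub s' s
    linarith
  have h0 : s' - s = 0 := Int.eq_zero_of_abs_lt_dvd hd habs
  have hs : s = s' := by linarith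
  subst hs
  have hk : ((-1 : ℤ)) ^ i * (k - k') = 0 := by linarith
  rcases mul_eq_zero.1 hk with h5 | h5
  · exact absurd h5 (pow_ne_zero _ (by norm_num))
  · rw [sub_eq_zero] at h5
    rw [h5]

lemma box_inj (hp : 2 ≤ p) (hq : 2 ≤ q) (hpq : Irrational (Real.log p / Real.log q)) (X : ℕ) :
    Set.InjOn (fun ab : ℕ × ℕ => (p : ℤ) ^ (X + ab.1) * (q : ℤ) ^ (X + ab.2))
      (↑(Finset.range X ×ˢ Finset.range X) : Set (ℕ × ℕ)) := by
  rintro ⟨a, b⟩ - ⟨c, d⟩ - h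
  simp only at h
  have h1 : p ^ (X + a) * q ^ (X + b) = p ^ (X + c) * q ^ (X + d) := by exact_mod_cast h
  obtain ⟨h2, h3⟩ := inj_pq hp hq hpq h1
  rw [Prod.mk.injEq]
  omega

lemma box_sum (hp : 2 ≤ p) (hq : 2 ≤ q) (hpq : Irrational (Real.log p / Real.log q)) (X : ℕ)
    (φ : ℤ → ℂ) : ∑ k ∈ box p q X, φ k =
      ∑ a ∈ Finset.range X, ∑ b ∈ Finset.range X, φ ((p : ℤ) ^ (X + a) * (q : ℤ) ^ (X + b)) := by
  unfold box
  rw [Finset.sum_image (box_inj hp hq hpq X), Finset.sum_product]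

lemma box_card (hp : 2 ≤ p) (hq : 2 ≤ q) (hpq : Irrational (Real.log p / Real.log q)) (X : ℕ) :
    (box p q X).card = X ^ 2 := by
  unfold box
  rw [Finset.card_image_of_injOn (box_inj hp hq hpq X), Finset.card_product, Finset.card_range]
  ring

lemma F_card {Y : ℕ} (hp : 2 ≤ p) (hq : 2 ≤ q) (hpq : Irrational (Real.log p / Real.log q))
    (hY : 1 ≤ Y) (L : ℕ) : (F p q Y L).card = ∏ i ∈ Finset.range L, (3 ^ i * Y) ^ 2 := by
  induction L with
  | zero => simp [F]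
  | succ L ih =>
    rw [Finset.prod_range_succ, ← ih, F, Finset.card_image_of_injOn (F_inj hp hq hY L),
      Finset.card_product, box_card hp hq hpq]

/-- The signed box average. -/
noncomputable def gg (p q : ℕ) (m : ℤ) (Y i : ℕ) (x : UnitAddCircle) : ℂ :=
  if i % 2 = 0 then G p q m (3 ^ i * Y) x else (starRingEnd ℂ) (G p q m (3 ^ i * Y) x)

lemma G_apply (m : ℤ) (X : ℕ) (x : UnitAddCircle) :
    G p q m X x = (X : ℂ)⁻¹ * ∑ a ∈ Finset.range X, (X : ℂ)⁻¹ *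
      ∑ b ∈ Finset.range X, (fourier (m * (p : ℤ) ^ (X + a) * (q : ℤ) ^ (X + b)) x : ℂ) := by
  unfold G
  simp [ContinuousMap.coe_sum]

lemma box_fourier (hp : 2 ≤ p) (hq : 2 ≤ q) (hpq : Irrational (Real.log p / Real.log q))
    (m : ℤ) {Y : ℕ} (hY : 1 ≤ Y) (i : ℕ) (x : UnitAddCircle) :
    ∑ k ∈ box p q (3 ^ i * Y), (fourier (m * ((-1) ^ i * k)) x : ℂ) =
      ((3 ^ i * Y : ℕ) : ℂ) ^ 2 * gg p q m Y i x := by
  set X := 3 ^ i * Y with hX
  have hX1 : 1 ≤ X := Nat.mul_pos (by positivity) hY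
  have hX0 : (X : ℂ) ≠ 0 := by exact_mod_cast (by omega : X ≠ 0)
  have base : ∑ k ∈ box p q X, (fourier (m * k) x : ℂ) = (X : ℂ) ^ 2 * G p q m X x := by
    rw [box_sum hp hq hpq, G_apply, ← Finset.mul_sum]
    field_simp
    refine Finset.sum_congr rfl fun a _ => Finset.sum_congr rfl fun b _ => ?_
    congr 2
    ring
  unfold gg
  rw [← hX]
  by_cases hi : i % 2 = 0
  · rw [if_pos hi, ← base]
    refine Finset.sum_congr rfl fun k _ => ?_
    have : ((-1 : ℤ)) ^ i = 1 := Even.neg_one_pow (Nat.even_iff.2 hi)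
    rw [this, one_mul]
  · rw [if_neg hi]
    have h1 : (X : ℂ) ^ 2 * (starRingEnd ℂ) (G p q m X x) =
        (starRingEnd ℂ) ((X : ℂ) ^ 2 * G p q m X x) := by
      rw [map_mul, map_pow, Complex.conj_natCast]
    rw [h1, ← base, map_sum]
    refine Finset.sum_congr rfl fun k _ => ?_
    have : ((-1 : ℤ)) ^ i = -1 := Odd.neg_one_pow (Nat.odd_iff.2 (by omega))
    rw [this, ← fourier_neg]
    congr 2
    ring

lemma F_fourier (hp : 2 ≤ p) (hq : 2 ≤ q) (hpq : Irrational (Real.log p / Real.log q))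
    (m : ℤ) {Y : ℕ} (hY : 1 ≤ Y) (L : ℕ) (x : UnitAddCircle) :
    ∑ n ∈ F p q Y L, (fourier (m * n) x : ℂ) =
      ((F p q Y L).card : ℂ) * ∏ i ∈ Finset.range L, gg p q m Y i x := by
  induction L with
  | zero => simp [F]
  | succ L ih =>
    rw [F, Finset.sum_image (F_inj hp hq hY L), Finset.card_image_of_injOn (F_inj hp hq hY L),
      Finset.card_product, Finset.sum_product, Finset.prod_range_succ, box_card hp hq hpq]
    simp only
    have h1 : ∀ s ∈ F p q Y L, ∑ k ∈ box p q (3 ^ L * Y),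
        (fourier (m * (s + (-1) ^ L * k)) x : ℂ) =
        (fourier (m * s) x : ℂ) * (((3 ^ L * Y : ℕ) : ℂ) ^ 2 * gg p q m Y L x) := by
      intro s _
      rw [← box_fourier hp hq hpq m hY, Finset.mul_sum]
      refine Finset.sum_congr rfl fun k _ => ?_
      rw [mul_add, fourier_add]
    rw [Finset.sum_congr rfl h1, ← Finset.sum_mul, ih]
    push_cast
    ring

lemma norm_G_le (m : ℤ) {X : ℕ} (hX : 1 ≤ X) (x : UnitAddCircle) : ‖G p q m X x‖ ≤ 1 := by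
  have hX0 : (0 : ℝ) < X := by exact_mod_cast hX
  rw [G_apply, norm_mul, norm_inv, Complex.norm_natCast]
  have h1 : ∀ a ∈ Finset.range X, ‖(X : ℂ)⁻¹ *
      ∑ b ∈ Finset.range X, (fourier (m * (p : ℤ) ^ (X + a) * (q : ℤ) ^ (X + b)) x : ℂ)‖ ≤ 1 := by
    intro a _
    rw [norm_mul, norm_inv, Complex.norm_natCast]
    have h2 : ‖∑ b ∈ Finset.range X,
        (fourier (m * (p : ℤ) ^ (X + a) * (q : ℤ) ^ (X + b)) x : ℂ)‖ ≤ X := by
      refine (norm_sum_le _ _).trans ?_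
      have h3 : ∀ b ∈ Finset.range X,
          ‖(fourier (m * (p : ℤ) ^ (X + a) * (q : ℤ) ^ (X + b)) x : ℂ)‖ ≤ 1 := by
        intro b _
        rw [fourier_apply]
        exact (Circle.norm_coe _).le
      calc _ ≤ ∑ b ∈ Finset.range X, (1 : ℝ) := Finset.sum_le_sum h3
        _ = X := by simp
    calc (X : ℝ)⁻¹ * _ ≤ (X : ℝ)⁻¹ * X := mul_le_mul_of_nonneg_left h2 (by positivity)
      _ = 1 := inv_mul_cancel₀ hX0.ne'
  calc (X : ℝ)⁻¹ * _ ≤ (X : ℝ)⁻¹ * X := by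
        refine mul_le_mul_of_nonneg_left ((norm_sum_le _ _).trans ?_) (by positivity)
        calc _ ≤ ∑ a ∈ Finset.range X, (1 : ℝ) := Finset.sum_le_sum h1
          _ = X := by simp
    _ = 1 := inv_mul_cancel₀ hX0.ne'

lemma norm_gg_le (m : ℤ) {Y : ℕ} (hY : 1 ≤ Y) (i : ℕ) (x : UnitAddCircle) :
    ‖gg p q m Y i x‖ ≤ 1 := by
  have hX1 : 1 ≤ 3 ^ i * Y := Nat.mul_pos (by positivity) hY
  unfold gg
  split
  · exact norm_G_le m hX1 x
  · rw [RCLike.norm_conj]; exact norm_G_le m hX1 x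

lemma prod_sub_prod {u v : ℕ → ℂ} (hu : ∀ i, ‖u i‖ ≤ 1) (hv : ∀ i, ‖v i‖ ≤ 1) (L : ℕ) :
    ‖∏ i ∈ Finset.range L, u i - ∏ i ∈ Finset.range L, v i‖ ≤
      ∑ i ∈ Finset.range L, ‖u i - v i‖ := by
  induction L with
  | zero => simp
  | succ L ih =>
    rw [Finset.prod_range_succ, Finset.prod_range_succ, Finset.sum_range_succ]
    have h1 : (∏ i ∈ Finset.range L, u i) * u L - (∏ i ∈ Finset.range L, v i) * v L =
        (∏ i ∈ Finset.range L, u i - ∏ i ∈ Finset.range L, v i) * u L +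
          (∏ i ∈ Finset.range L, v i) * (u L - v L) := by ring
    rw [h1]
    refine (norm_add_le _ _).trans (add_le_add ?_ ?_)
    · rw [norm_mul]
      calc _ ≤ (∑ i ∈ Finset.range L, ‖u i - v i‖) * 1 :=
            mul_le_mul ih (hu L) (norm_nonneg _) (Finset.sum_nonneg fun _ _ => norm_nonneg _)
        _ = _ := mul_one _
    · rw [norm_mul]
      have h2 : ‖∏ i ∈ Finset.range L, v i‖ ≤ 1 := by
        rw [norm_prod]
        exact Finset.prod_le_one (fun _ _ => norm_nonneg _) fun i _ => hv i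
      calc _ ≤ 1 * ‖u L - v L‖ := mul_le_mul_of_nonneg_right h2 (norm_nonneg _)
        _ = _ := one_mul _

end Pool.Agent.X170.Spec
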