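import Pool.Agent.X170.Log2.Main

/-!
Mean ergodic convergence of the box averages of the characters for `×p, ×q` invariant measures.
-/

set_option autoImplicit false

open MeasureTheory Filter Topology

namespace Pool.Agent.X170.Spec

open Pool.Agent.X170.Log2

section abs

variable {E : Type*} [NormedAddCommGroup E] [InnerProductSpace ℂ E] [CompleteSpace E]

lemma norm_pow_apply {T : E →L[ℂ] E} (hT : ∀ v, ‖T v‖ = ‖v‖) (n : ℕ) (v : E) :
    ‖(T ^ n) v‖ = ‖v‖ := by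
  induction n with
  | zero => simp
  | succ n ih =>
    rw [pow_succ', mul_apply_eq_comp, hT, ih]

lemma avg_shift {T : E →L[ℂ] E} (hT : ∀ v, ‖T v‖ = ‖v‖) {h : ℕ → E} {h₀ : E}
    (hh : Tendsto h atTop (𝓝 h₀)) :
    ∃ g, Tendsto (fun X : ℕ => (X : ℂ)⁻¹ • ∑ a ∈ Finset.range X, (T ^ (X + a)) (h X)) atTop
      (𝓝 g) := by
  have hT1 : ‖T‖ ≤ 1 := T.opNorm_le_bound zero_le_one fun v => by rw [hT, one_mul]
  set P : E := ((T.eqLocus (1 : E →L[ℂ] E)).orthogonalProjectionOnto h₀ : E) with hP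
  have hlim := T.tendsto_birkhoffAverage_orthogonalProjection hT1 h₀
  have hfix : T P = P := by
    have h1 := ((T.eqLocus (1 : E →L[ℂ] E)).orthogonalProjectionOnto h₀).2
    rw [LinearMap.mem_eqLocus] at h1
    exact h1
  have hfixn : ∀ n : ℕ, (T ^ n) P = P := by
    intro n
    induction n with
    | zero => simp
    | succ n ih => rw [pow_succ', mul_apply_eq_comp, ih, hfix]
  refine ⟨P, ?_⟩
  have hA : ∀ X : ℕ, ∀ v : E, ‖(X : ℂ)⁻¹ • ∑ a ∈ Finset.range X, (T ^ a) v‖ ≤ ‖v‖ := by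
    intro X v
    rcases Nat.eq_zero_or_pos X with h0 | h0
    · subst h0; simp
    · have hX : (0 : ℝ) < X := by exact_mod_cast h0
      rw [norm_smul, norm_inv, Complex.norm_natCast]
      calc (X : ℝ)⁻¹ * ‖∑ a ∈ Finset.range X, (T ^ a) v‖
          ≤ (X : ℝ)⁻¹ * ∑ a ∈ Finset.range X, ‖(T ^ a) v‖ :=
            mul_le_mul_of_nonneg_left (norm_sum_le _ _) (by positivity)
        _ = ‖v‖ := by
          simp only [norm_pow_apply hT]
          rw [Finset.sum_const, Finset.card_range, nsmul_eq_mul]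
          field_simp
  have hb : ∀ X : ℕ, ‖(X : ℂ)⁻¹ • ∑ a ∈ Finset.range X, (T ^ (X + a)) (h X) - P‖ ≤
      ‖h X - h₀‖ + ‖birkhoffAverage ℂ T _root_.id X h₀ - P‖ := by
    intro X
    have h1 : (X : ℂ)⁻¹ • ∑ a ∈ Finset.range X, (T ^ (X + a)) (h X) - P =
        (T ^ X) ((X : ℂ)⁻¹ • ∑ a ∈ Finset.range X, (T ^ a) (h X) - P) := by
      rw [map_sub, map_smul, map_sum, hfixn]
      congr 2
      refine Finset.sum_congr rfl fun a _ => ?_
      rw [pow_add, mul_apply_eq_comp]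
    rw [h1, norm_pow_apply hT]
    have h2 : birkhoffAverage ℂ T _root_.id X h₀ =
        (X : ℂ)⁻¹ • ∑ a ∈ Finset.range X, (T ^ a) h₀ := by
      unfold birkhoffAverage birkhoffSum
      congr 1
      refine Finset.sum_congr rfl fun a _ => ?_
      simp
    have h3 : (X : ℂ)⁻¹ • ∑ a ∈ Finset.range X, (T ^ a) (h X) - P =
        ((X : ℂ)⁻¹ • ∑ a ∈ Finset.range X, (T ^ a) (h X - h₀)) +
          (birkhoffAverage ℂ T _root_.id X h₀ - P) := by
      rw [h2]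
      simp only [map_sub, Finset.sum_sub_distrib, smul_sub]
      abel
    rw [h3]
    exact (norm_add_le _ _).trans (add_le_add (hA X _) le_rfl)
  rw [tendsto_iff_norm_sub_tendsto_zero]
  have h4 : Tendsto (fun X : ℕ => ‖h X - h₀‖ + ‖birkhoffAverage ℂ T _root_.id X h₀ - P‖) atTop
      (𝓝 (0 + 0)) :=
    (tendsto_iff_norm_sub_tendsto_zero.1 hh).add (tendsto_iff_norm_sub_tendsto_zero.1 hlim)
  rw [add_zero] at h4
  exact squeeze_zero (fun _ => norm_nonneg _) hb h4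

lemma avg_two {T S : E →L[ℂ] E} (hT : ∀ v, ‖T v‖ = ‖v‖) (hS : ∀ v, ‖S v‖ = ‖v‖) (f : E) :
    ∃ g, Tendsto (fun X : ℕ => (X : ℂ)⁻¹ • ∑ a ∈ Finset.range X, (T ^ (X + a))
      ((X : ℂ)⁻¹ • ∑ b ∈ Finset.range X, (S ^ (X + b)) f)) atTop (𝓝 g) := by
  obtain ⟨h₀, hh⟩ := avg_shift hS (h := fun _ => f) tendsto_const_nhds
  exact avg_shift hT hh

end abs

variable {μ : Measure UnitAddCircle} [IsProbabilityMeasure μ]

/-- The class of a continuous function in `L²(μ)`. -/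
noncomputable def Φ (μ : Measure UnitAddCircle) [IsProbabilityMeasure μ] :
    C(UnitAddCircle, ℂ) →L[ℂ] Lp ℂ 2 μ :=
  ContinuousMap.toLp 2 μ ℂ

/-- Composition with `×p`. -/
noncomputable def comp (p : ℕ) (hp : MeasurePreserving (fun x : UnitAddCircle => p • x) μ μ) :
    Lp ℂ 2 μ →L[ℂ] Lp ℂ 2 μ :=
  (Lp.compMeasurePreservingₗᵢ ℂ (fun x : UnitAddCircle => p • x) hp).toContinuousLinearMap

lemma norm_comp (p : ℕ) (hp : MeasurePreserving (fun x : UnitAddCircle => p • x) μ μ)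
    (v : Lp ℂ 2 μ) : ‖comp p hp v‖ = ‖v‖ :=
  LinearIsometry.norm_map _ v

lemma fourier_smul (n : ℤ) (p : ℕ) (x : UnitAddCircle) :
    (fourier n (p • x) : ℂ) = fourier (n * p) x := by
  rw [fourier_apply, fourier_apply, mul_smul, natCast_zsmul]

lemma comp_fourier (p : ℕ) (hp : MeasurePreserving (fun x : UnitAddCircle => p • x) μ μ) (n : ℤ) :
    comp p hp (Φ μ (fourier n)) = Φ μ (fourier (n * p)) := by
  apply Lp.ext
  have h1 := Lp.coeFn_compMeasurePreserving (Φ μ (fourier n)) hp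
  have h2 := ContinuousMap.coeFn_toLp (p := 2) (𝕜 := ℂ) μ (fourier n : C(UnitAddCircle, ℂ))
  have h3 := ContinuousMap.coeFn_toLp (p := 2) (𝕜 := ℂ) μ (fourier (n * p) : C(UnitAddCircle, ℂ))
  have h4 := hp.quasiMeasurePreserving.ae h2
  filter_upwards [h1, h3, h4] with x e1 e3 e4
  have e5 : (comp p hp (Φ μ (fourier n)) : UnitAddCircle → ℂ) x =
      (Lp.compMeasurePreserving (fun x : UnitAddCircle => p • x) hp (Φ μ (fourier n)) :
        UnitAddCircle → ℂ) x := rfl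
  rw [e5, e1]
  show (Φ μ (fourier n) : UnitAddCircle → ℂ) (p • x) = (Φ μ (fourier (n * p)) : UnitAddCircle → ℂ) x
  unfold Φ
  rw [e3, e4, fourier_smul]

lemma comp_pow_fourier (p : ℕ) (hp : MeasurePreserving (fun x : UnitAddCircle => p • x) μ μ)
    (n : ℤ) (a : ℕ) : (comp p hp ^ a) (Φ μ (fourier n)) = Φ μ (fourier (n * (p : ℤ) ^ a)) := by
  induction a with
  | zero => simp
  | succ a ih =>
    rw [pow_succ', mul_apply_eq_comp, ih, comp_fourier]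
    congr 2
    rw [pow_succ]
    ring

/-- The averages of the characters over boxes. -/
noncomputable def G (p q : ℕ) (m : ℤ) (X : ℕ) : C(UnitAddCircle, ℂ) :=
  (X : ℂ)⁻¹ • ∑ a ∈ Finset.range X, (X : ℂ)⁻¹ • ∑ b ∈ Finset.range X,
    fourier (m * (p : ℤ) ^ (X + a) * (q : ℤ) ^ (X + b))

lemma G_lim {p q : ℕ} (hμ : Inv p q μ) (m : ℤ) :
    ∃ g : Lp ℂ 2 μ, Tendsto (fun X : ℕ => Φ μ (G p q m X)) atTop (𝓝 g) := by
  obtain ⟨g, hg⟩ := avg_two (T := comp p hμ.1) (S := comp q hμ.2) (norm_comp p hμ.1)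
    (norm_comp q hμ.2) (Φ μ (fourier m))
  refine ⟨g, hg.congr fun X => ?_⟩
  unfold G
  rw [map_smul, map_sum]
  congr 1
  refine Finset.sum_congr rfl fun a _ => ?_
  rw [map_smul, map_smul, map_sum, map_sum]
  congr 1
  refine Finset.sum_congr rfl fun b _ => ?_
  rw [comp_pow_fourier, comp_pow_fourier]
  congr 2
  ring

lemma norm_sq_Φ (f : C(UnitAddCircle, ℂ)) : ‖Φ μ f‖ ^ 2 = ∫ x, ‖f x‖ ^ 2 ∂μ := by
  have h1 : (inner ℂ (Φ μ f) (Φ μ f) : ℂ) = ∫ x, f x * (starRingEnd ℂ) (f x) ∂μ := by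
    unfold Φ
    exact ContinuousMap.inner_toLp μ f f
  have h2 : (inner ℂ (Φ μ f) (Φ μ f) : ℂ) = ((‖Φ μ f‖ ^ 2 : ℝ) : ℂ) := by
    rw [inner_self_eq_norm_sq_to_K]
    push_cast
    rfl
  have h3 : ∫ x, f x * (starRingEnd ℂ) (f x) ∂μ = ((∫ x, ‖f x‖ ^ 2 ∂μ : ℝ) : ℂ) := by
    rw [← integral_complex_ofReal]
    refine integral_congr_ae (ae_of_all _ fun x => ?_)
    simp only
    rw [Complex.mul_conj, Complex.normSq_eq_norm_sq]
  rw [h2, h3] at h1
  exact_mod_cast h1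

lemma cont_int {F : UnitAddCircle → ℝ} (hF : Continuous F) : Integrable F μ := by
  exact hF.integrable_of_hasCompactSupport (HasCompactSupport.of_compactSpace F)

lemma cont_intC {F : UnitAddCircle → ℂ} (hF : Continuous F) : Integrable F μ := by
  exact hF.integrable_of_hasCompactSupport (HasCompactSupport.of_compactSpace F)

/-- The box averages form a Cauchy sequence in `L¹(μ)`. -/
lemma G_cauchy {p q : ℕ} (hμ : Inv p q μ) (m : ℤ) {ε : ℝ} (hε : 0 < ε) :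
    ∃ X₀ : ℕ, ∀ X Y : ℕ, X₀ ≤ X → X₀ ≤ Y → ∫ x, ‖G p q m X x - G p q m Y x‖ ∂μ ≤ ε := by
  obtain ⟨g, hg⟩ := G_lim hμ m
  have hc := hg.cauchySeq
  rw [Metric.cauchySeq_iff] at hc
  obtain ⟨X₀, h⟩ := hc ε hε
  refine ⟨X₀, fun X Y hX hY => ?_⟩
  have h1 := h X hX Y hY
  rw [dist_eq_norm, ← map_sub] at h1
  set f := G p q m X - G p q m Y with hf
  have h2 : ∫ x, ‖f x‖ ^ 2 ∂μ ≤ ε ^ 2 := by
    rw [← norm_sq_Φ]
    exact pow_le_pow_left₀ (norm_nonneg _) h1.le 2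
  have hfc : Continuous fun x => ‖f x‖ := f.continuous.norm
  have hfc2 : Continuous fun x => ‖f x‖ ^ 2 := hfc.pow 2
  have h3 : ∀ x, ‖f x‖ ≤ ε / 2 + (1 / (2 * ε)) * ‖f x‖ ^ 2 := by
    intro x
    have : 0 ≤ (‖f x‖ - ε) ^ 2 / (2 * ε) := by positivity
    have e : (‖f x‖ - ε) ^ 2 / (2 * ε) = ε / 2 + (1 / (2 * ε)) * ‖f x‖ ^ 2 - ‖f x‖ := by
      field_simp
      ring
    linarith
  have h4 : ∫ x, ‖f x‖ ∂μ ≤ ∫ x, (ε / 2 + (1 / (2 * ε)) * ‖f x‖ ^ 2) ∂μ :=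
    integral_mono (cont_int hfc) (cont_int (continuous_const.add (continuous_const.mul hfc2))) h3
  have h5 : ∫ x, (ε / 2 + (1 / (2 * ε)) * ‖f x‖ ^ 2) ∂μ =
      ε / 2 + (1 / (2 * ε)) * ∫ x, ‖f x‖ ^ 2 ∂μ := by
    rw [integral_add (integrable_const _) ((cont_int hfc2).const_mul _), integral_const_mul]
    simp
  calc ∫ x, ‖G p q m X x - G p q m Y x‖ ∂μ = ∫ x, ‖f x‖ ∂μ := rfl
    _ ≤ ε / 2 + (1 / (2 * ε)) * ∫ x, ‖f x‖ ^ 2 ∂μ := by rw [← h5]; exact h4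
    _ ≤ ε / 2 + (1 / (2 * ε)) * ε ^ 2 := by
      have := mul_le_mul_of_nonneg_left h2 (by positivity : 0 ≤ 1 / (2 * ε))
      linarith
    _ = ε := by field_simp; ring

lemma int_fourier {p q : ℕ} (hμ : Inv p q μ) (m : ℤ) (a b : ℕ) :
    ∫ x, (fourier (m * (p : ℤ) ^ a * (q : ℤ) ^ b) x : ℂ) ∂μ = ∫ x, (fourier m x : ℂ) ∂μ := by
  have h := (hμ.mem a b)
  have h1 : ∫ x, (fourier m ((p ^ a * q ^ b) • x) : ℂ) ∂μ = ∫ x, (fourier m x : ℂ) ∂μ := by
    have h2 := integral_map (μ := μ) (φ := fun x : UnitAddCircle => (p ^ a * q ^ b) • x)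
      h.measurable.aemeasurable (f := fun x : UnitAddCircle => (fourier m x : ℂ))
      ((fourier m).continuous.aestronglyMeasurable)
    rw [h.map_eq] at h2
    exact h2.symm
  rw [← h1]
  refine integral_congr_ae (ae_of_all _ fun x => ?_)
  simp only
  rw [fourier_smul]
  congr 2
  push_cast
  ring

lemma int_G {p q : ℕ} (hμ : Inv p q μ) (m : ℤ) {X : ℕ} (hX : 1 ≤ X) :
    ∫ x, G p q m X x ∂μ = ∫ x, (fourier m x : ℂ) ∂μ := by
  have hX0 : (X : ℂ) ≠ 0 := by exact_mod_cast (by omega : X ≠ 0)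
  have h1 : ∀ x, G p q m X x = (X : ℂ)⁻¹ * ∑ a ∈ Finset.range X, (X : ℂ)⁻¹ *
      ∑ b ∈ Finset.range X, (fourier (m * (p : ℤ) ^ (X + a) * (q : ℤ) ^ (X + b)) x : ℂ) := by
    intro x
    unfold G
    simp [ContinuousMap.coe_sum]
  simp_rw [h1]
  rw [integral_const_mul, integral_finsetSum _ fun a _ =>
    (cont_intC (by fun_prop)).const_mul _]
  have h2 : ∀ a, ∫ x, (X : ℂ)⁻¹ * ∑ b ∈ Finset.range X,
      (fourier (m * (p : ℤ) ^ (X + a) * (q : ℤ) ^ (X + b)) x : ℂ) ∂μ =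
      ∫ x, (fourier m x : ℂ) ∂μ := by
    intro a
    rw [integral_const_mul, integral_finsetSum _ fun b _ => (cont_intC (by fun_prop))]
    simp_rw [int_fourier hμ]
    rw [Finset.sum_const, Finset.card_range, nsmul_eq_mul]
    field_simp
  simp_rw [h2]
  rw [Finset.sum_const, Finset.card_range, nsmul_eq_mul]
  field_simp

end Pool.Agent.X170.Spec
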