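import Pool.Agent.X170.Spec.Count

set_option autoImplicit false

open MeasureTheory Filter Topology

namespace Pool.Agent.X170.Spec

open Pool.Agent.X170.Log2

variable {p q : ℕ} {μ : Measure UnitAddCircle} [IsProbabilityMeasure μ]

lemma cont_gg (m : ℤ) (Y i : ℕ) : Continuous (gg p q m Y i) := by
  unfold gg
  by_cases hi : i % 2 = 0
  · simp only [if_pos hi]
    exact (G p q m (3 ^ i * Y)).continuous
  · simp only [if_neg hi]
    exact Complex.continuous_conj.comp (G p q m (3 ^ i * Y)).continuous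

lemma prod_even (z : ℂ) (l : ℕ) :
    ∏ i ∈ Finset.range (2 * l), (if i % 2 = 0 then z else (starRingEnd ℂ) z) =
      ((‖z‖ ^ (2 * l) : ℝ) : ℂ) := by
  induction l with
  | zero => simp
  | succ l ih =>
    have h1 : 2 * (l + 1) = 2 * l + 1 + 1 := by ring
    rw [h1, Finset.prod_range_succ, Finset.prod_range_succ, ih, if_pos (by omega),
      if_neg (by omega), mul_assoc, Complex.mul_conj, Complex.normSq_eq_norm_sq]
    push_cast
    ring

lemma jensen (m : ℤ) (hμ : Inv p q μ) {Y : ℕ} (hY : 1 ≤ Y) (n : ℕ) :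
    ‖∫ x, (fourier m x : ℂ) ∂μ‖ ^ n ≤ ∫ x, ‖G p q m Y x‖ ^ n ∂μ := by
  have hc : Continuous fun x => ‖G p q m Y x‖ := (G p q m Y).continuous.norm
  have h1 : ‖∫ x, (fourier m x : ℂ) ∂μ‖ ≤ ∫ x, ‖G p q m Y x‖ ∂μ := by
    rw [← int_G hμ m hY]
    exact norm_integral_le_integral_norm _
  have h2 := ConvexOn.map_integral_le (μ := μ) (f := fun x => ‖G p q m Y x‖)
    (s := Set.Ici (0 : ℝ)) (convexOn_pow n) (continuous_pow n).continuousOn isClosed_Ici
    (ae_of_all _ fun x => norm_nonneg _) (cont_int hc) (cont_int (hc.pow n))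
  exact (pow_le_pow_left₀ (norm_nonneg _) h1 n).trans h2

lemma main_ineq (hμ : Inv p q μ) (m : ℤ) (l : ℕ) (hc : ∫ x, (fourier m x : ℂ) ∂μ ≠ 0) :
    ∃ Y₀ : ℕ, ∀ Y : ℕ, Y₀ ≤ Y → 1 ≤ Y →
      2 / 3 * ‖∫ x, (fourier m x : ℂ) ∂μ‖ ^ (2 * l) ≤
        ‖∫ x, ∏ i ∈ Finset.range (2 * l), gg p q m Y i x ∂μ‖ := by
  set c := ∫ x, (fourier m x : ℂ) ∂μ with hcdef
  have hcpos : 0 < ‖c‖ ^ (2 * l) := pow_pos (norm_pos_iff.2 hc) _
  set η : ℝ := ‖c‖ ^ (2 * l) / (3 * (2 * l + 1)) with hη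
  have hη0 : 0 < η := by positivity
  obtain ⟨Y₀, hY₀⟩ := G_cauchy hμ m hη0
  refine ⟨Y₀, fun Y hY hY1 => ?_⟩
  set v : ℕ → UnitAddCircle → ℂ := fun i x =>
    if i % 2 = 0 then G p q m Y x else (starRingEnd ℂ) (G p q m Y x) with hv
  have hvn : ∀ i x, ‖v i x‖ ≤ 1 := by
    intro i x
    simp only [hv]
    split
    · exact norm_G_le m hY1 x
    · rw [RCLike.norm_conj]; exact norm_G_le m hY1 x
  have hvc : ∀ i, Continuous (v i) := by
    intro i
    simp only [hv]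
    by_cases hi : i % 2 = 0
    · simp only [if_pos hi]; exact (G p q m Y).continuous
    · simp only [if_neg hi]; exact Complex.continuous_conj.comp (G p q m Y).continuous
  have hdiff : ∀ i x, ‖gg p q m Y i x - v i x‖ = ‖G p q m (3 ^ i * Y) x - G p q m Y x‖ := by
    intro i x
    simp only [gg, hv]
    split
    · rfl
    · rw [← map_sub, RCLike.norm_conj]
  have hA : Continuous fun x => ∏ i ∈ Finset.range (2 * l), gg p q m Y i x :=
    continuous_finsetProd _ fun i _ => cont_gg m Y i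
  have hB : Continuous fun x => ∏ i ∈ Finset.range (2 * l), v i x :=
    continuous_finsetProd _ fun i _ => hvc i
  have h1 : ‖∫ x, ∏ i ∈ Finset.range (2 * l), gg p q m Y i x ∂μ -
      ∫ x, ∏ i ∈ Finset.range (2 * l), v i x ∂μ‖ ≤ 2 * l * η := by
    rw [← integral_sub (cont_intC hA) (cont_intC hB)]
    refine (norm_integral_le_integral_norm _).trans ?_
    have h2 : ∫ x, ‖∏ i ∈ Finset.range (2 * l), gg p q m Y i x -
        ∏ i ∈ Finset.range (2 * l), v i x‖ ∂μ ≤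
        ∫ x, ∑ i ∈ Finset.range (2 * l), ‖G p q m (3 ^ i * Y) x - G p q m Y x‖ ∂μ := by
      refine integral_mono (cont_int (hA.sub hB).norm) (cont_int ?_) fun x => ?_
      · exact continuous_finsetSum _ fun i _ =>
          ((G p q m (3 ^ i * Y)).continuous.sub (G p q m Y).continuous).norm
      · refine (prod_sub_prod (fun i => norm_gg_le m hY1 i x) (fun i => hvn i x) (2 * l)).trans
          (le_of_eq ?_)
        exact Finset.sum_congr rfl fun i _ => hdiff i x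
    refine h2.trans ?_
    have hint : ∀ i ∈ Finset.range (2 * l),
        Integrable (fun x => ‖G p q m (3 ^ i * Y) x - G p q m Y x‖) μ := fun i _ =>
      cont_int ((G p q m (3 ^ i * Y)).continuous.sub (G p q m Y).continuous).norm
    rw [integral_finsetSum _ hint]
    have h3 : ∀ i ∈ Finset.range (2 * l),
        ∫ x, ‖G p q m (3 ^ i * Y) x - G p q m Y x‖ ∂μ ≤ η := by
      intro i _
      refine hY₀ _ _ (hY.trans ?_) hY
      exact Nat.le_mul_of_pos_left _ (by positivity)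
    calc _ ≤ ∑ i ∈ Finset.range (2 * l), η := Finset.sum_le_sum h3
      _ = 2 * l * η := by
        rw [Finset.sum_const, Finset.card_range, nsmul_eq_mul]
        push_cast
        ring
  have h4 : ‖c‖ ^ (2 * l) ≤ ‖∫ x, ∏ i ∈ Finset.range (2 * l), v i x ∂μ‖ := by
    have h5 : ∫ x, ∏ i ∈ Finset.range (2 * l), v i x ∂μ =
        ((∫ x, ‖G p q m Y x‖ ^ (2 * l) ∂μ : ℝ) : ℂ) := by
      rw [← integral_complex_ofReal]
      refine integral_congr_ae (ae_of_all _ fun x => ?_)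
      simp only [hv]
      exact prod_even _ _
    rw [h5, Complex.norm_real, Real.norm_of_nonneg (integral_nonneg fun x => by positivity)]
    exact jensen m hμ hY1 (2 * l)
  have h6 : ‖∫ x, ∏ i ∈ Finset.range (2 * l), v i x ∂μ‖ ≤
      ‖∫ x, ∏ i ∈ Finset.range (2 * l), gg p q m Y i x ∂μ‖ + 2 * l * η := by
    have := norm_sub_norm_le (∫ x, ∏ i ∈ Finset.range (2 * l), v i x ∂μ)
      (∫ x, ∏ i ∈ Finset.range (2 * l), gg p q m Y i x ∂μ)
    rw [norm_sub_rev] at this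
    linarith
  have h7 : 2 * l * η ≤ ‖c‖ ^ (2 * l) / 3 := by
    rw [hη, mul_div_assoc', div_le_div_iff₀ (by positivity) (by norm_num)]
    nlinarith
  linarith

lemma norm_coef_le (n : ℤ) : ‖∫ x, (fourier n x : ℂ) ∂μ‖ ≤ 1 := by
  have h := norm_integral_le_of_norm_le_const (μ := μ) (f := fun x => (fourier n x : ℂ)) (C := 1)
    (ae_of_all _ fun x => by rw [fourier_apply]; exact (Circle.norm_coe _).le)
  simpa using h

lemma count (hp : 2 ≤ p) (hq : 2 ≤ q) (hpq : Irrational (Real.log p / Real.log q))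
    (hμ : Inv p q μ) (m : ℤ) (l : ℕ) (hc : ∫ x, (fourier m x : ℂ) ∂μ ≠ 0) :
    ∃ Y₀ : ℕ, ∀ Y : ℕ, Y₀ ≤ Y → 1 ≤ Y →
      ‖∫ x, (fourier m x : ℂ) ∂μ‖ ^ (2 * l) / 3 * ((F p q Y (2 * l)).card : ℝ) ≤
        (open Classical in ((F p q Y (2 * l)).filter fun n =>
          ‖∫ x, (fourier m x : ℂ) ∂μ‖ ^ (2 * l) / 3 ≤
            ‖∫ x, (fourier (m * n) x : ℂ) ∂μ‖).card : ℝ) := by
  classical
  obtain ⟨Y₀, hY₀⟩ := main_ineq hμ m l hc
  refine ⟨Y₀, fun Y hY hY1 => ?_⟩
  have h1 := hY₀ Y hY hY1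
  set δ := ‖∫ x, (fourier m x : ℂ) ∂μ‖ ^ (2 * l) / 3 with hδ
  set S := F p q Y (2 * l) with hS
  have hδ0 : 0 ≤ δ := by positivity
  have h2 : ∑ n ∈ S, ∫ x, (fourier (m * n) x : ℂ) ∂μ =
      (S.card : ℂ) * ∫ x, ∏ i ∈ Finset.range (2 * l), gg p q m Y i x ∂μ := by
    rw [← integral_finsetSum _ fun n _ => cont_intC (by fun_prop), ← integral_const_mul]
    refine integral_congr_ae (ae_of_all _ fun x => ?_)
    exact F_fourier hp hq hpq m hY1 (2 * l) x
  have h3 : 2 * δ * S.card ≤ ‖∑ n ∈ S, ∫ x, (fourier (m * n) x : ℂ) ∂μ‖ := by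
    rw [h2, norm_mul, Complex.norm_natCast]
    have h4 : 2 * δ = 2 / 3 * ‖∫ x, (fourier m x : ℂ) ∂μ‖ ^ (2 * l) := by rw [hδ]; ring
    rw [h4, mul_comm ((S.card : ℝ))]
    exact mul_le_mul_of_nonneg_right h1 (by positivity)
  have h5 : ‖∑ n ∈ S, ∫ x, (fourier (m * n) x : ℂ) ∂μ‖ ≤
      ((S.filter fun n => δ ≤ ‖∫ x, (fourier (m * n) x : ℂ) ∂μ‖).card : ℝ) + δ * S.card := by
    refine (norm_sum_le _ _).trans ?_
    rw [← Finset.sum_filter_add_sum_filter_not S
      (fun n => δ ≤ ‖∫ x, (fourier (m * n) x : ℂ) ∂μ‖)]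
    refine add_le_add ?_ ?_
    · calc _ ≤ ∑ n ∈ S.filter fun n => δ ≤ ‖∫ x, (fourier (m * n) x : ℂ) ∂μ‖, (1 : ℝ) :=
            Finset.sum_le_sum fun n _ => norm_coef_le _
        _ = _ := by simp
    · calc _ ≤ ∑ n ∈ S.filter fun n => ¬ δ ≤ ‖∫ x, (fourier (m * n) x : ℂ) ∂μ‖, δ :=
            Finset.sum_le_sum fun n hn => (not_le.1 (Finset.mem_filter.1 hn).2).le
        _ = δ * ((S.filter fun n => ¬ δ ≤ ‖∫ x, (fourier (m * n) x : ℂ) ∂μ‖).card : ℝ) := by
            rw [Finset.sum_const, nsmul_eq_mul]; ring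
        _ ≤ δ * S.card := by
            refine mul_le_mul_of_nonneg_left ?_ hδ0
            exact_mod_cast Finset.card_filter_le _ _
  linarith

/-- The integers `n`, `|n| ≤ N`, with a Fourier coefficient of modulus at least `δ`. -/
def Big (μ : Measure UnitAddCircle) (N : ℕ) (δ : ℝ) : Set ℤ :=
  {n : ℤ | |n| ≤ (N : ℤ) ∧ δ ≤ ‖∫ x, (fourier n x : ℂ) ∂μ‖}

omit [IsProbabilityMeasure μ] in
lemma Big_finite (N : ℕ) (δ : ℝ) : (Big μ N δ).Finite := by
  refine (Set.finite_Icc (-(N : ℤ)) N).subset ?_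
  rintro n ⟨hn, -⟩
  exact abs_le.1 hn

theorem growth (hp : 2 ≤ p) (hq : 2 ≤ q) (hpq : Irrational (Real.log p / Real.log q))
    (hμ : Inv p q μ) {m : ℤ} (hm : m ≠ 0) (l : ℕ) (hc : ∫ x, (fourier m x : ℂ) ∂μ ≠ 0) :
    ∃ κ : ℝ, 0 < κ ∧ ∀ᶠ N : ℕ in atTop, κ * (Real.log N) ^ (4 * l) ≤
      ((Big μ N (‖∫ x, (fourier m x : ℂ) ∂μ‖ ^ (2 * l) / 3)).ncard : ℝ) := by
  classical
  obtain ⟨Y₀, hY₀⟩ := count hp hq hpq hμ m l hc
  set δ := ‖∫ x, (fourier m x : ℂ) ∂μ‖ ^ (2 * l) / 3 with hδ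
  have hδ0 : 0 < δ := by
    have := norm_pos_iff.2 hc
    positivity
  -- constants
  set M : ℝ := |(m : ℝ)| with hM
  have hM1 : 1 ≤ M := by
    have : (1 : ℤ) ≤ |m| := Int.one_le_abs hm
    have h : ((1 : ℤ) : ℝ) ≤ ((|m| : ℤ) : ℝ) := by exact_mod_cast this
    push_cast at h
    exact h
  set P : ℝ := ((p : ℝ) * q) ^ (3 ^ (2 * l)) with hP
  have hpq4 : (4 : ℝ) ≤ (p : ℝ) * q := by
    have h1 : (2 : ℝ) ≤ p := by exact_mod_cast hp
    have h2 : (2 : ℝ) ≤ q := by exact_mod_cast hq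
    nlinarith
  have hP1 : 1 < P := one_lt_pow₀ (by linarith) (by positivity)
  have hlP : 0 < Real.log P := Real.log_pos hP1
  refine ⟨δ * (1 / (2 * Real.log P)) ^ (4 * l), by positivity, ?_⟩
  have hlog : Tendsto (fun N : ℕ => Real.log N) atTop atTop :=
    Real.tendsto_log_atTop.comp tendsto_natCast_atTop_atTop
  filter_upwards [hlog.eventually_ge_atTop (2 * (Real.log M + Real.log P)),
    hlog.eventually_ge_atTop (2 * Real.log P * (Y₀ + 1)), eventually_ge_atTop 1] with N h1 h2 hN1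
  have hN0 : (0 : ℝ) < N := by exact_mod_cast hN1
  have hlM : 0 ≤ Real.log M := Real.log_nonneg hM1
  set t : ℝ := (Real.log N - Real.log M) / Real.log P with ht
  have ht0 : 0 ≤ t := div_nonneg (by linarith) hlP.le
  set Y : ℕ := ⌊t⌋₊ with hYdef
  have hYt : (Y : ℝ) ≤ t := Nat.floor_le ht0
  have htY : t < Y + 1 := Nat.lt_floor_add_one _
  have hYlow : Real.log N / (2 * Real.log P) ≤ Y := by
    have h3 : Real.log N / (2 * Real.log P) + 1 ≤ t := by
      rw [ht, div_add_one (by positivity), div_le_div_iff₀ (by positivity) hlP]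
      nlinarith
    linarith
  have hYbig : ((Y₀ : ℝ) + 1) ≤ Y := by
    refine le_trans ?_ hYlow
    rw [le_div_iff₀ (by positivity)]
    linarith
  have hY1 : 1 ≤ Y := by
    have h3 : (1 : ℝ) ≤ Y := by
      have : (0 : ℝ) ≤ Y₀ := Nat.cast_nonneg _
      linarith
    exact_mod_cast h3
  have hYY : Y₀ ≤ Y := by
    have h3 : (Y₀ : ℝ) ≤ Y := by linarith
    exact_mod_cast h3
  have hcount := hY₀ Y hYY hY1
  -- the size bound
  have hsize : M * P ^ Y ≤ N := by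
    have h3 : Real.log (M * P ^ Y) ≤ Real.log N := by
      rw [Real.log_mul (by positivity) (by positivity), Real.log_pow]
      rw [ht, le_div_iff₀ hlP] at hYt
      linarith
    exact (Real.log_le_log_iff (by positivity) hN0).1 h3
  set S := F p q Y (2 * l) with hS
  set Gd := S.filter fun n => δ ≤ ‖∫ x, (fourier (m * n) x : ℂ) ∂μ‖ with hGd
  have hsub : (fun n : ℤ => m * n) '' (Gd : Set ℤ) ⊆ Big μ N δ := by
    rintro _ ⟨n, hn, rfl⟩
    rw [Finset.mem_coe, hGd, Finset.mem_filter] at hn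
    refine ⟨?_, hn.2⟩
    have h3 := F_lt hp hq hY1 (2 * l) hn.1
    have h4 : (2 : ℝ) * |(n : ℝ)| < P ^ Y := by
      have h5 : (((2 * |n| : ℤ)) : ℝ) < ((((p : ℤ) * q) ^ (3 ^ (2 * l) * Y) : ℤ) : ℝ) := by
        exact_mod_cast h3
      push_cast at h5
      rw [hP, ← pow_mul]
      exact h5
    have h6 : |((m * n : ℤ) : ℝ)| ≤ N := by
      push_cast
      rw [abs_mul]
      calc M * |(n : ℝ)| ≤ M * P ^ Y := by
            refine mul_le_mul_of_nonneg_left ?_ (by linarith)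
            have := abs_nonneg (n : ℝ)
            linarith
        _ ≤ N := hsize
    have h7 : (((|m * n| : ℤ)) : ℝ) ≤ ((N : ℤ) : ℝ) := by
      push_cast
      push_cast at h6
      exact h6
    exact_mod_cast h7
  have hcard : (Gd.card : ℝ) ≤ ((Big μ N δ).ncard : ℝ) := by
    have h3 : ((fun n : ℤ => m * n) '' (Gd : Set ℤ)).ncard = Gd.card := by
      rw [Set.ncard_image_of_injective _ (mul_right_injective₀ hm), Set.ncard_coe_finset]
    rw [← h3]
    exact_mod_cast Set.ncard_le_ncard hsub (Big_finite N δ)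
  have hF : (Real.log N / (2 * Real.log P)) ^ (4 * l) ≤ (S.card : ℝ) := by
    rw [hS, F_card hp hq hpq hY1]
    push_cast
    have h3 : ∀ L : ℕ, ((Y : ℝ) ^ 2) ^ L ≤ ∏ i ∈ Finset.range L, ((3 : ℝ) ^ i * Y) ^ 2 := by
      intro L
      induction L with
      | zero => simp
      | succ L ih =>
        rw [Finset.prod_range_succ, pow_succ]
        refine mul_le_mul ih ?_ (by positivity) (Finset.prod_nonneg fun _ _ => by positivity)
        refine pow_le_pow_left₀ (by positivity) ?_ 2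
        have : (1 : ℝ) ≤ 3 ^ L := one_le_pow₀ (by norm_num)
        nlinarith [(Nat.cast_nonneg Y : (0 : ℝ) ≤ Y)]
    refine le_trans ?_ (h3 (2 * l))
    rw [← pow_mul, show 2 * (2 * l) = 4 * l by ring]
    refine pow_le_pow_left₀ ?_ hYlow _
    exact div_nonneg (Real.log_nonneg (by exact_mod_cast hN1)) (by positivity)
  calc δ * (1 / (2 * Real.log P)) ^ (4 * l) * (Real.log N) ^ (4 * l)
      = δ * (Real.log N / (2 * Real.log P)) ^ (4 * l) := by
        rw [div_eq_mul_one_div (Real.log N), mul_pow]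
        ring
    _ ≤ δ * S.card := mul_le_mul_of_nonneg_left hF hδ0.le
    _ ≤ Gd.card := hcount
    _ ≤ _ := hcard

theorem sparse (hp : 2 ≤ p) (hq : 2 ≤ q) (hpq : Irrational (Real.log p / Real.log q))
    (hμ : Inv p q μ) (K : ℕ) (h : ∀ δ : ℝ, 0 < δ → ∃ C : ℝ, ∃ᶠ N : ℕ in atTop,
      ((Big μ N δ).ncard : ℝ) ≤ C * (Real.log N) ^ K) : μ = volume := by
  refine Pool.Agent.W764.FB.eq_volume fun m hm => ?_
  by_contra hc
  obtain ⟨κ, hκ, hev⟩ := growth hp hq hpq hμ hm (K + 1) hc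
  have hδ : 0 < ‖∫ x, (fourier m x : ℂ) ∂μ‖ ^ (2 * (K + 1)) / 3 := by
    have := norm_pos_iff.2 hc
    positivity
  obtain ⟨C, hC⟩ := h _ hδ
  have hlog : Tendsto (fun N : ℕ => Real.log N) atTop atTop :=
    Real.tendsto_log_atTop.comp tendsto_natCast_atTop_atTop
  obtain ⟨N, h1, h2, h3, h4⟩ := (hC.and_eventually (hev.and
    ((hlog.eventually_ge_atTop 1).and (hlog.eventually_gt_atTop (C / κ))))).exists
  have h5 : (Real.log N) ^ (K + 1) ≤ (Real.log N) ^ (4 * (K + 1)) :=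
    pow_le_pow_right₀ h3 (by omega)
  have h6 : 0 < (Real.log N) ^ K := by positivity
  have h7 : κ * (Real.log N) ^ (K + 1) ≤ C * (Real.log N) ^ K :=
    (mul_le_mul_of_nonneg_left h5 hκ.le).trans (h2.trans h1)
  rw [pow_succ, mul_comm ((Real.log N) ^ K), ← mul_assoc] at h7
  have h8 := le_of_mul_le_mul_right h7 h6
  rw [div_lt_iff₀ hκ] at h4
  linarith

end Pool.Agent.X170.Spec
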